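import Pool.Agent.Helper14.BSC.Stmts

set_option autoImplicit false

/-! # GAM: the uniformizer is not a `p`-th power times a unit of `B` -/

namespace Pool.Agent.Helper14.BSC

open Polynomial

theorem gam_lt {K : Type} [Field K] (A : ValuationSubring K) (x : K) :
    A.valuation x < 1 ↔ x = 0 ∨ x⁻¹ ∉ A := by
  by_cases hx : x = 0
  · simp [hx]
  · have h0 : A.valuation x ≠ 0 := (A.valuation.ne_zero_iff).2 hx
    rw [← A.valuation_le_one_iff, map_inv₀, not_le]
    constructor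
    · intro h
      exact Or.inr ((one_lt_inv₀ (zero_lt_iff.2 h0)).2 h)
    · rintro (h | h)
      · exact absurd h hx
      · exact (one_lt_inv₀ (zero_lt_iff.2 h0)).1 h

theorem gam_one {K : Type} [Field K] (A : ValuationSubring K) (x : K) (hx : x ≠ 0)
    (h1 : x ∈ A) (h2 : x⁻¹ ∈ A) : A.valuation x = 1 := by
  apply le_antisymm ((A.valuation_le_one_iff x).2 h1)
  by_contra hc
  rw [not_le, gam_lt] at hc
  rcases hc with hc | hc
  · exact hx hc
  · exact hc h2

theorem gam_field {K : Type} [Field K] (p : ℕ) [Fact p.Prime] (hp : (p : K) = 0) (ε : K)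
    (h : ∀ u : K, u ≠ 0 → ∃ r : ℕ, r < p ∧ ∃ y : K, u = ε ^ r * y ^ p) : ∃ y : K, ε = y ^ p := by
  by_contra hno
  push Not at hno
  have hpp : p.Prime := Fact.out
  have : CharP K p := by
    obtain ⟨q, hq⟩ := CharP.exists K
    have hd : q ∣ p := (CharP.cast_eq_zero_iff K q p).1 hp
    rcases (Nat.dvd_prime hpp).1 hd with h1 | h1
    · subst h1
      have h3 : ((1 : ℕ) : K) = 0 := CharP.cast_eq_zero K 1
      rw [Nat.cast_one] at h3
      exact absurd h3 one_ne_zero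
    · subst h1
      exact hq
  have : ExpChar K p := ExpChar.prime hpp
  have h1 : 1 + ε ≠ 0 := by
    intro hc
    apply hno (-1)
    have h2 : (frobenius K p) (-1) = -1 := by rw [map_neg, map_one]
    rw [frobenius_def] at h2
    rw [h2]
    linear_combination hc
  obtain ⟨r, hr, η, hη⟩ := h (1 + ε) h1
  set F : Subfield K := (frobenius K p).fieldRange with hF
  let a : F := ⟨ε ^ p, ε, rfl⟩
  let b : F := ⟨η ^ p, η, rfl⟩
  have hirr : Irreducible (X ^ p - C a : F[X]) := by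
    apply X_pow_sub_C_irreducible_of_prime hpp
    rintro ⟨c, d, hd⟩ hc
    have h2 : c ^ p = ε ^ p := congrArg Subtype.val hc
    have h3 : c = ε := by
      have h4 : (frobenius K p) c = (frobenius K p) ε := h2
      exact frobenius_inj K p h4
    apply hno d
    rw [← h3]
    exact hd.symm
  have hmin := minpoly.eq_of_irreducible_of_monic hirr (x := ε) (by
    simp only [map_sub, map_pow, aeval_X, aeval_C]
    exact sub_self _) (monic_X_pow_sub_C a hpp.ne_zero)
  set Q : F[X] := C b * X ^ r - X - 1 with hQ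
  have hQ0 : Q ≠ 0 := by
    intro hc
    by_cases hr0 : r = 0
    · have h2 : Q.coeff 1 = -1 := by
        rw [hQ, hr0]
        simp [coeff_one]
      rw [hc, coeff_zero] at h2
      exact absurd h2.symm (by simp)
    · have h2 : Q.coeff 0 = -1 := by
        rw [hQ]
        simp [coeff_X_pow, Ne.symm hr0]
      rw [hc, coeff_zero] at h2
      exact absurd h2.symm (by simp)
  have hQe : aeval ε Q = 0 := by
    rw [hQ]
    simp only [map_sub, map_mul, map_pow, aeval_X, aeval_C, map_one]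
    show η ^ p * ε ^ r - ε - 1 = 0
    linear_combination -hη
  have h2 := minpoly.degree_le_of_ne_zero F ε hQ0 hQe
  rw [← hmin, degree_X_pow_sub_C hpp.pos] at h2
  have h3 : Q.degree ≤ ((max r 1 : ℕ) : WithBot ℕ) := by
    rw [hQ]
    refine (degree_sub_le _ _).trans (max_le ((degree_sub_le _ _).trans (max_le ?_ ?_)) ?_)
    · refine (degree_C_mul_X_pow_le _ _).trans ?_
      exact_mod_cast le_max_left _ _
    · refine degree_X_le.trans ?_
      exact_mod_cast le_max_right _ _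
    · refine degree_one_le.trans ?_
      exact_mod_cast Nat.zero_le _
  have h4 : (p : WithBot ℕ) ≤ ((max r 1 : ℕ) : WithBot ℕ) := h2.trans h3
  have h5 : p ≤ max r 1 := by exact_mod_cast h4
  have := hpp.two_le
  omega

section

variable {k Ω : Type} [Field k] [Field Ω] [Algebra k Ω] {p : ℕ} [Fact p.Prime]

theorem gam_nm_mul (Lc : Loc k Ω p) (x y : Acl k Ω) : nm Lc (x * y) = nm Lc x * nm Lc y := by
  unfold nm
  rw [map_mul, norm_mul]

theorem gam_nm_pow (Lc : Loc k Ω p) (x : Acl k Ω) (n : ℕ) : nm Lc (x ^ n) = nm Lc x ^ n := by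
  unfold nm
  rw [map_pow, norm_pow]

theorem gam_nm_zpow (Lc : Loc k Ω p) (x : Acl k Ω) (n : ℤ) : nm Lc (x ^ n) = nm Lc x ^ n := by
  unfold nm
  rw [map_zpow₀, norm_zpow]

theorem gam_nm_inv (Lc : Loc k Ω p) (x : Acl k Ω) : nm Lc x⁻¹ = (nm Lc x)⁻¹ := by
  unfold nm
  rw [map_inv₀, norm_inv]

theorem gam_nm_one (Lc : Loc k Ω p) : nm Lc 1 = 1 := by
  unfold nm
  rw [map_one, norm_one]

theorem gam_nm_pos (Lc : Loc k Ω p) {x : Acl k Ω} (hx : x ≠ 0) : 0 < nm Lc x := by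
  unfold nm
  rw [norm_pos_iff]
  exact (_root_.map_ne_zero Lc.ι).2 hx

theorem gam_nm_p (Lc : Loc k Ω p) : nm Lc ((p : ℕ) : Acl k Ω) = (p : ℝ)⁻¹ := by
  unfold nm
  rw [map_natCast, ← map_natCast (algebraMap ℚ_[p] ℂ_[p]), norm_algebraMap', Padic.norm_p]

theorem gam_Up_mul (D : Sec k Ω) (Lc : Loc k Ω p) {x y : NN D Lc.S₁} (hx : Up D Lc x)
    (hy : Up D Lc y) : Up D Lc (x * y) := by
  obtain ⟨c, hc, g, rfl⟩ := hx
  obtain ⟨c', hc', g', rfl⟩ := hy
  refine ⟨c * c', ?_, g * g', ?_⟩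
  · have e : ((c * c' : FF Lc.S₁) : Acl k Ω) = (c : Acl k Ω) * (c' : Acl k Ω) := rfl
    rw [e, gam_nm_mul, hc, hc', one_mul]
  · rw [map_mul, mul_pow]
    ring

theorem gam_Up_one (D : Sec k Ω) (Lc : Loc k Ω p) : Up D Lc 1 := by
  refine ⟨1, ?_, 1, ?_⟩
  · have e : ((1 : FF Lc.S₁) : Acl k Ω) = 1 := rfl
    rw [e, gam_nm_one]
  · rw [map_one, one_pow, mul_one]

/-- units of `FF S₁` are `p`-th powers modulo the maximal ideal -/
theorem gam_res (hR : ST_RESK) (Lc : Loc k Ω p) (c : FF Lc.S₁) (hc : nm Lc c = 1) :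
    ∃ a : FF Lc.S₁, nm Lc a ≤ 1 ∧ nm Lc ((c - a ^ p : FF Lc.S₁) : Acl k Ω) < 1 := by
  obtain ⟨κ, _, _, _, ρ, h1, h2, h3, h4⟩ := hR k Ω p Lc
  have hpow : ∀ (x : FF Lc.S₁), nm Lc x ≤ 1 → ∀ n : ℕ, nm Lc ((x ^ n : FF Lc.S₁) : Acl k Ω) ≤ 1 ∧
      ρ (x ^ n) = ρ x ^ n := by
    intro x hx n
    induction n with
    | zero =>
      refine ⟨?_, ?_⟩
      · rw [pow_zero]
        exact (gam_nm_one Lc).le
      · rw [pow_zero, pow_zero, h1]
    | succ n ih =>
      refine ⟨?_, ?_⟩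
      · rw [pow_succ]
        have e : ((x ^ n * x : FF Lc.S₁) : Acl k Ω) = ((x ^ n : FF Lc.S₁) : Acl k Ω) * (x : Acl k Ω) := rfl
        rw [e, gam_nm_mul]
        exact mul_le_one₀ ih.1 (norm_nonneg _) hx
      · rw [pow_succ, (h4 _ _ ih.1 hx).2, ih.2, pow_succ]
  obtain ⟨b, hb⟩ : ∃ b : κ, b ^ p = ρ c := by
    have hinj : Function.Injective (fun b : κ => b ^ p) := by
      have : ExpChar κ p := ExpChar.prime Fact.out
      exact frobenius_inj κ p
    exact (Finite.injective_iff_surjective.1 hinj) (ρ c)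
  obtain ⟨a, ha, hab⟩ := h2 b
  refine ⟨a, ha, ?_⟩
  have hap := hpow a ha p
  have hle : nm Lc ((c - a ^ p : FF Lc.S₁) : Acl k Ω) ≤ 1 := by
    have e : ((c - a ^ p : FF Lc.S₁) : Acl k Ω) = (c : Acl k Ω) - ((a ^ p : FF Lc.S₁) : Acl k Ω) := rfl
    rw [e]
    unfold nm
    rw [map_sub]
    rw [sub_eq_add_neg]
    refine (IsUltrametricDist.norm_add_le_max _ _).trans (max_le hc.le ?_)
    rw [norm_neg]
    exact hap.1
  rw [← h3 _ hle]
  have h5 := (h4 (c - a ^ p) (a ^ p) hle hap.1).1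
  rw [sub_add_cancel, hap.2, hab, hb] at h5
  exact (left_eq_add.1 (by rw [add_comm]; exact h5))

/-- integral powers reduced modulo `p` -/
theorem gam_zred {K : Type} [Field K] (p : ℕ) (hp : 0 < p) (ε : K) (hε : ε ≠ 0) (j : ℤ) :
    ∃ r : ℕ, r < p ∧ ∃ q : ℤ, ε ^ j = ε ^ r * (ε ^ q) ^ p := by
  have hp' : (p : ℤ) ≠ 0 := by exact_mod_cast hp.ne'
  have h1 := Int.emod_nonneg j hp'
  have h2 := Int.emod_lt_of_pos j (by exact_mod_cast hp : (0 : ℤ) < p)
  have h3 := Int.emod_add_mul_ediv j p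
  refine ⟨(j % p).toNat, by omega, j / p, ?_⟩
  rw [← zpow_natCast ε, Int.toNat_of_nonneg h1, ← zpow_natCast (ε ^ (j / (p : ℤ))), ← zpow_mul,
    ← zpow_add₀ hε]
  congr 1
  linarith

/-- the unit `ε` is a `p`-th power times a one-unit of `B` -/
theorem gam_eps [CharZero k] [IsAlgClosed Ω] (hK : ST_KUM) (hR : ST_RESK) (D : Sec k Ω)
    (Lc : Loc k Ω p) (B : ValuationSubring (NN D Lc.S₁)) (hB : Over D Lc B)
    (t ε : NN D Lc.S₁) (hε : ε ∈ B) (hε' : ε⁻¹ ∈ B) (hπ : piN D Lc = t ^ p * ε) :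
    ∃ y z : NN D Lc.S₁, y ≠ 0 ∧ B.valuation z < 1 ∧ ε = y ^ p * (1 + z) := by
  have hpp : p.Prime := Fact.out
  have hπ0 : piN D Lc ≠ 0 := by
    unfold piN
    rw [_root_.map_ne_zero]
    intro hc
    have h1 : Lc.π = 0 := congrArg Subtype.val hc
    have h2 := Lc.posπ
    rw [h1, map_zero, norm_zero] at h2
    exact lt_irrefl _ h2
  have hε0 : ε ≠ 0 := by
    intro hc
    rw [hc, mul_zero] at hπ
    exact hπ0 hπ
  have ht0 : t ≠ 0 := by
    intro hc
    rw [hc, zero_pow hpp.ne_zero, zero_mul] at hπ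
    exact hπ0 hπ
  have hvε : B.valuation ε = 1 := gam_one B ε hε0 hε hε'
  set K := IsLocalRing.ResidueField B with hKdef
  have hres0 : ∀ x : B, IsLocalRing.residue B x = 0 ↔ B.valuation (x : NN D Lc.S₁) < 1 := by
    intro x
    rw [IsLocalRing.residue_eq_zero_iff, B.valuation_lt_one_iff]
  have hpK : (p : K) = 0 := by
    have h1 : IsLocalRing.residue B (p : B) = 0 := by
      rw [hres0, gam_lt]
      right
      have e : (((p : B) : NN D Lc.S₁))⁻¹ = inc D Lc.S₁ ((p : FF Lc.S₁)⁻¹) := by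
        rw [map_inv₀, map_natCast]
        rfl
      rw [e, hB]
      have e2 : (((p : FF Lc.S₁)⁻¹ : FF Lc.S₁) : Acl k Ω) = ((p : ℕ) : Acl k Ω)⁻¹ := rfl
      rw [e2, gam_nm_inv, gam_nm_p, inv_inv, not_le]
      exact_mod_cast hpp.one_lt
    rwa [map_natCast] at h1
  obtain ⟨yb, hyb⟩ := gam_field p hpK (IsLocalRing.residue B ⟨ε, hε⟩) (by
    intro u hu
    obtain ⟨uB, rfl⟩ := IsLocalRing.residue_surjective u
    have huv : B.valuation (uB : NN D Lc.S₁) = 1 := by
      apply le_antisymm (B.valuation_le_one uB)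
      by_contra hc
      rw [not_le] at hc
      exact hu ((hres0 uB).2 hc)
    have hu0 : (uB : NN D Lc.S₁) ≠ 0 := by
      intro hc
      rw [hc, map_zero] at huv
      exact zero_ne_one huv
    obtain ⟨c, hc0, y, hy0, hcy⟩ := hK k Ω D Lc.S₁ p hpp.pos (uB : NN D Lc.S₁) hu0
    have hcA : (c : Acl k Ω) ≠ 0 := fun h => hc0 (Subtype.ext h)
    obtain ⟨j, hj⟩ := Lc.disc c c.2 hcA
    set πF : FF Lc.S₁ := ⟨Lc.π, Lc.memπ⟩ with hπF
    have hπF0 : πF ≠ 0 := by
      intro h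
      apply hπ0
      unfold piN
      rw [← hπF, h, map_zero]
    set c0 : FF Lc.S₁ := c * πF ^ (-j) with hc0def
    have hc0nm : nm Lc (c0 : Acl k Ω) = 1 := by
      have e : (c0 : Acl k Ω) = (c : Acl k Ω) * Lc.π ^ (-j) := rfl
      rw [e, gam_nm_mul, gam_nm_zpow]
      have h1 : nm Lc (c : Acl k Ω) = nm Lc Lc.π ^ j := hj
      rw [h1, ← zpow_add₀ (gam_nm_pos Lc (x := Lc.π) (fun h => hπF0 (Subtype.ext h))).ne']
      rw [add_neg_cancel, zpow_zero]
    have hc00 : c0 ≠ 0 := mul_ne_zero hc0 (zpow_ne_zero _ hπF0)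
    obtain ⟨a, ha, hac⟩ := gam_res hR Lc c0 hc0nm
    obtain ⟨r, hr, q, hrq⟩ := gam_zred p hpp.pos ε hε0 j
    set w : NN D Lc.S₁ := ε ^ q * (t ^ j * y) with hw
    have hcπ : inc D Lc.S₁ c = inc D Lc.S₁ c0 * (piN D Lc) ^ j := by
      have e : c = c0 * πF ^ j := by
        rw [hc0def, mul_assoc, ← zpow_add₀ hπF0, neg_add_cancel, zpow_zero, mul_one]
      have e2 : piN D Lc = inc D Lc.S₁ πF := rfl
      rw [e2, ← map_zpow₀, ← map_mul, ← e]
    have huw : (uB : NN D Lc.S₁) = inc D Lc.S₁ c0 * ε ^ r * w ^ p := by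
      rw [hcy, hcπ, hπ, mul_zpow, hrq, hw]
      have e : (t ^ p) ^ j = (t ^ j) ^ p := by
        rw [← zpow_natCast, ← zpow_natCast, ← zpow_mul, ← zpow_mul, mul_comm]
      rw [e]
      ring
    have hvc : B.valuation (inc D Lc.S₁ c0) = 1 := by
      apply gam_one
      · rw [_root_.map_ne_zero]
        exact hc00
      · rw [hB]
        exact hc0nm.le
      · rw [← map_inv₀, hB]
        have e : ((c0⁻¹ : FF Lc.S₁) : Acl k Ω) = (c0 : Acl k Ω)⁻¹ := rfl
        rw [e, gam_nm_inv, hc0nm, inv_one]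
    have hvw : B.valuation w = 1 := by
      have h1 := congrArg B.valuation huw
      rw [huv, map_mul, map_mul, map_pow, map_pow, hvc, hvε, one_pow, one_mul, one_mul] at h1
      rcases lt_trichotomy (B.valuation w) 1 with h2 | h2 | h2
      · exact absurd h1.symm (pow_lt_one' h2 hpp.ne_zero).ne
      · exact h2
      · exact absurd h1.symm (one_lt_pow' h2 hpp.ne_zero).ne'
    have hwB : w ∈ B := (B.valuation_le_one_iff w).1 hvw.le
    have haB : inc D Lc.S₁ a ∈ B := (hB a).2 ha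
    have hc0B : inc D Lc.S₁ c0 ∈ B := (hB c0).2 hc0nm.le
    refine ⟨r, hr, IsLocalRing.residue B (⟨_, haB⟩ * ⟨w, hwB⟩), ?_⟩
    have h1 : uB = (⟨_, hc0B⟩ : B) * ⟨ε, hε⟩ ^ r * ⟨w, hwB⟩ ^ p := Subtype.ext huw
    have h2 : IsLocalRing.residue B (⟨_, hc0B⟩ : B) = IsLocalRing.residue B (⟨_, haB⟩ : B) ^ p := by
      rw [← map_pow, ← sub_eq_zero, ← map_sub, hres0]
      have e : (((⟨_, hc0B⟩ : B) - (⟨_, haB⟩ : B) ^ p : B) : NN D Lc.S₁)
          = inc D Lc.S₁ (c0 - a ^ p) := by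
        rw [map_sub, map_pow]
        rfl
      rw [e, gam_lt]
      by_cases h0 : c0 - a ^ p = 0
      · left
        rw [h0, map_zero]
      · right
        rw [← map_inv₀, hB, not_le]
        have e3 : (((c0 - a ^ p)⁻¹ : FF Lc.S₁) : Acl k Ω) = ((c0 - a ^ p : FF Lc.S₁) : Acl k Ω)⁻¹ := rfl
        rw [e3, gam_nm_inv]
        exact (one_lt_inv₀ (gam_nm_pos Lc (fun h => h0 (Subtype.ext h)))).2 hac
    rw [h1, map_mul, map_mul, map_pow, map_pow, h2, map_mul, mul_pow]
    ring)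
  obtain ⟨y, hy⟩ := IsLocalRing.residue_surjective yb
  have hres : IsLocalRing.residue B ((⟨ε, hε⟩ : B) - y ^ p) = 0 := by
    rw [map_sub, map_pow, hy, hyb, sub_self]
  rw [hres0] at hres
  have hyv : B.valuation (y : NN D Lc.S₁) = 1 := by
    apply le_antisymm (B.valuation_le_one y)
    by_contra hc
    rw [not_le, ← hres0, hy] at hc
    rw [hc, zero_pow hpp.ne_zero, hres0] at hyb
    exact absurd hyb (by rw [hvε]; exact lt_irrefl _)
  have hy0 : (y : NN D Lc.S₁) ≠ 0 := by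
    intro hc
    rw [hc, map_zero] at hyv
    exact zero_ne_one hyv
  refine ⟨y, (ε - (y : NN D Lc.S₁) ^ p) / (y : NN D Lc.S₁) ^ p, hy0, ?_, ?_⟩
  · rw [map_div₀, map_pow, hyv, one_pow, div_one]
    exact hres
  · field_simp
    ring

theorem gam_arith (n m : ℕ) (hn : 2 ≤ n) (hm : 2 ≤ m) : n + m ≤ n * m := by
  obtain ⟨a, rfl⟩ := Nat.exists_eq_add_of_le hn
  obtain ⟨b, rfl⟩ := Nat.exists_eq_add_of_le hm
  nlinarith [Nat.zero_le (a * b)]

/-- strong induction on the depth exponent -/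
theorem gam_ind [CharZero k] [IsAlgClosed Ω] (hDp : ST_DEEP) (hU : ST_UNR) (D : Sec k Ω)
    (Lc : Loc k Ω p) (O B : ValuationSubring (NN D Lc.S₁)) (hT : TameV D Lc O)
    (hB : Over D Lc B) (hOB : ∀ x, x ∈ O → x ∈ B) :
    ∀ n : ℕ, 0 < n → ∀ z : NN D Lc.S₁, B.valuation z < 1 →
      O.valuation z ^ n < O.valuation (lamN D Lc) ^ p → Up D Lc (1 + z) := by
  have hpp : p.Prime := Fact.out
  have hw : ∀ z : NN D Lc.S₁, B.valuation z < 1 → O.valuation z < 1 := by
    intro z hz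
    rw [gam_lt] at hz ⊢
    rcases hz with hz | hz
    · exact Or.inl hz
    · exact Or.inr fun h => hz (hOB _ h)
  intro n
  induction n using Nat.strong_induction_on with
  | _ n ih =>
    intro hn z hz hzn
    by_cases h1 : n = 1
    · subst h1
      by_cases hz0 : z = 0
      · rw [hz0, add_zero]
        exact gam_Up_one D Lc
      · apply hDp k Ω D p Lc O hT z
        intro hc
        rw [← O.valuation_le_one_iff, map_div₀, map_pow] at hc
        have hzv : 0 < O.valuation z := zero_lt_iff.2 ((O.valuation.ne_zero_iff).2 hz0)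
        rw [div_le_one₀ hzv] at hc
        rw [pow_one] at hzn
        exact absurd hzn (not_lt.2 hc)
    · obtain ⟨η, hη, hη2⟩ := hU k Ω D p Lc
      set e := inc D Lc.S₁ η with he
      have hev : B.valuation e ≤ 1 := (B.valuation_le_one_iff _).2 ((hB η).2 hη)
      have hew : O.valuation e ≤ 1 := (O.valuation_le_one_iff _).2 ((hT.1 η).2 hη)
      have hv1 : B.valuation (e * z ^ p) ≤ B.valuation z := by
        rw [map_mul, map_pow]
        exact (mul_le_of_le_one_left' hev).trans (pow_le_of_le_one zero_le hz.le hpp.ne_zero)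
      have hwz := hw z hz
      have hw1 : O.valuation (e * z ^ p) ≤ O.valuation z ^ p := by
        rw [map_mul, map_pow]
        exact mul_le_of_le_one_left' hew
      have hw1' : O.valuation (e * z ^ p) < 1 :=
        hw1.trans_lt (pow_lt_one' hwz hpp.ne_zero)
      set Dd := 1 + z - e * z ^ p with hDd
      have hDv : B.valuation Dd = 1 := by
        have e1 : Dd = 1 + (z - e * z ^ p) := by rw [hDd]; ring
        rw [e1]
        apply Valuation.map_one_add_of_lt
        exact (B.valuation.map_sub _ _).trans_lt (max_lt hz (hv1.trans_lt hz))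
      have hDw : O.valuation Dd = 1 := by
        have e1 : Dd = 1 + (z - e * z ^ p) := by rw [hDd]; ring
        rw [e1]
        apply Valuation.map_one_add_of_lt
        exact (O.valuation.map_sub _ _).trans_lt (max_lt hwz hw1')
      have hD0 : Dd ≠ 0 := by
        intro hc
        rw [hc, map_zero] at hDv
        exact zero_ne_one hDv
      have hUD := hη2 z hD0
      have hpn : 2 ≤ p := hpp.two_le
      have hm1 : (n + p - 1) / p < n := by
        rw [Nat.div_lt_iff_lt_mul hpp.pos]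
        have h2 : 2 ≤ n := by omega
        have h3 := gam_arith n p h2 hpn
        omega
      have hm2 : n ≤ p * ((n + p - 1) / p) := by
        have h3 := Nat.div_add_mod (n + p - 1) p
        have h4 := Nat.mod_lt (n + p - 1) hpp.pos
        omega
      have hm0 : 0 < (n + p - 1) / p := by
        rw [Nat.pos_iff_ne_zero]
        intro hc
        rw [hc] at hm2
        omega
      have hU1 : Up D Lc (1 + e * z ^ p / Dd) := by
        apply ih _ hm1 hm0
        · rw [map_div₀, hDv, div_one]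
          exact hv1.trans_lt hz
        · rw [map_div₀, hDw, div_one]
          refine lt_of_le_of_lt ?_ hzn
          refine (pow_le_pow_left' hw1 _).trans ?_
          rw [← pow_mul]
          exact pow_le_pow_right_of_le_one' hwz.le hm2
      have e2 : 1 + z = Dd * (1 + e * z ^ p / Dd) := by
        field_simp
        rw [hDd]
        ring
      rw [e2]
      exact gam_Up_mul D Lc hUD hU1

theorem gam_final [CharZero k] [IsAlgClosed Ω] (hRt : ST_ROOT) (D : Sec k Ω)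
    (Lc : Loc k Ω p) (G : NN D Lc.S₁) (c : FF Lc.S₁) (hc : nm Lc c = 1)
    (hG : piN D Lc = inc D Lc.S₁ c * G ^ p) : False := by
  have hpp : p.Prime := Fact.out
  have hc0 : c ≠ 0 := by
    intro h
    rw [h] at hc
    have e : nm Lc ((0 : FF Lc.S₁) : Acl k Ω) = 0 := by
      unfold nm
      rw [ZeroMemClass.coe_zero, map_zero, norm_zero]
    rw [e] at hc
    exact zero_ne_one hc
  set πF : FF Lc.S₁ := ⟨Lc.π, Lc.memπ⟩ with hπF
  have e0 : piN D Lc = inc D Lc.S₁ πF := rfl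
  have hG2 : G ^ p = inc D Lc.S₁ (c⁻¹ * πF) := by
    rw [map_mul, map_inv₀, ← e0, hG, inv_mul_cancel_left₀]
    exact (_root_.map_ne_zero _).2 hc0
  obtain ⟨d, hd⟩ := hRt k Ω D Lc.S₁ p hpp.pos G _ hG2
  have h1 : πF = c * d ^ p := by
    apply (inc D Lc.S₁).toRingHom.injective
    show inc D Lc.S₁ πF = inc D Lc.S₁ (c * d ^ p)
    rw [map_mul, map_pow, ← hd, ← e0, hG]
  have h2 : nm Lc Lc.π = nm Lc (d : Acl k Ω) ^ p := by
    have h3 : Lc.π = (c : Acl k Ω) * (d : Acl k Ω) ^ p := congrArg Subtype.val h1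
    rw [h3, gam_nm_mul, gam_nm_pow, hc, one_mul]
  have hp0 : 0 < nm Lc Lc.π := Lc.posπ
  have hd0 : (d : Acl k Ω) ≠ 0 := by
    intro h
    rw [h] at h2
    have e : nm Lc (0 : Acl k Ω) = 0 := by
      unfold nm
      rw [map_zero, norm_zero]
    rw [e, zero_pow hpp.ne_zero] at h2
    exact hp0.ne' h2
  obtain ⟨j, hj⟩ := Lc.disc d d.2 hd0
  have hj' : nm Lc (d : Acl k Ω) = nm Lc Lc.π ^ j := hj
  rw [hj', ← zpow_natCast, ← zpow_mul] at h2
  have h3 : nm Lc Lc.π ^ (1 : ℤ) = nm Lc Lc.π ^ (j * (p : ℤ)) := by rw [zpow_one]; exact h2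
  have h4 := zpow_right_injective₀ hp0 (ne_of_lt Lc.ltπ) h3
  have h5 : (p : ℤ) ∣ 1 := ⟨j, by rw [h4]; ring⟩
  have h6 := Int.le_of_dvd one_pos h5
  have h7 := hpp.two_le
  omega

end

theorem st_GAM (hK : ST_KUM) (hRt : ST_ROOT) (hR : ST_RESK) (hDp : ST_DEEP) (hU : ST_UNR) :
    ST_GAM := by
  intro k Ω _ _ _ _ _ D p _ Lc O B hT hBd hB t ε hε hε' hπ
  have hpp : p.Prime := Fact.out
  obtain ⟨y, z, hy0, hz, hyz⟩ := gam_eps hK hR D Lc B hB t ε hε hε' hπ
  have hπO : piN D Lc ∈ O := (hT.1 _).2 Lc.ltπ.le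
  have hOB : ∀ x, x ∈ O → x ∈ B := by
    intro x hx
    rw [hBd]
    intro n _
    exact mul_mem hπO (pow_mem hx n)
  have hπA : Lc.π ≠ 0 := by
    intro hc
    have h1 := Lc.posπ
    rw [hc, map_zero, norm_zero] at h1
    exact lt_irrefl _ h1
  have hlA : Lc.ζ - 1 ≠ 0 := by
    intro hc
    have h1 := Lc.prim
    rw [sub_eq_zero.1 hc] at h1
    have h2 := h1.eq_orderOf
    rw [orderOf_one] at h2
    exact hpp.one_lt.ne' h2
  set lF : FF Lc.S₁ := ⟨Lc.ζ - 1, sub_mem Lc.memζ (one_mem _)⟩ with hlF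
  have hlF0 : lF ≠ 0 := fun h => hlA (congrArg Subtype.val h)
  have hl0 : lamN D Lc ≠ 0 := (_root_.map_ne_zero _).2 hlF0
  have hlv : 0 < O.valuation (lamN D Lc) := zero_lt_iff.2 ((O.valuation.ne_zero_iff).2 hl0)
  obtain ⟨M, hM, hMz⟩ : ∃ M : ℕ, 0 < M ∧ O.valuation z ^ M < O.valuation (lamN D Lc) ^ p := by
    by_cases hz0 : z = 0
    · refine ⟨1, one_pos, ?_⟩
      rw [hz0, map_zero, pow_one]
      exact pow_pos hlv p
    · rw [gam_lt] at hz
      have hz1 := hz.resolve_left hz0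
      rw [hBd] at hz1
      push Not at hz1
      obtain ⟨n, hn, hzn⟩ := hz1
      have hzv : 0 < O.valuation z := zero_lt_iff.2 ((O.valuation.ne_zero_iff).2 hz0)
      rw [← O.valuation_le_one_iff, not_le, map_mul, map_pow, map_inv₀, inv_pow,
        ← div_eq_mul_inv, one_lt_div₀ (pow_pos hzv n)] at hzn
      obtain ⟨E, hE⟩ := exists_pow_lt_of_lt_one (pow_pos (gam_nm_pos Lc hlA) p) Lc.ltπ
      have hE1 : O.valuation (piN D Lc) ^ (E + 1) ≤ O.valuation (lamN D Lc) ^ p := by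
        rw [← div_le_one₀ (pow_pos hlv p), ← map_pow, ← map_pow, ← map_div₀,
          O.valuation_le_one_iff]
        set πF : FF Lc.S₁ := ⟨Lc.π, Lc.memπ⟩ with hπF
        have e1 : piN D Lc ^ (E + 1) / lamN D Lc ^ p = inc D Lc.S₁ (πF ^ (E + 1) / lF ^ p) := by
          rw [map_div₀, map_pow, map_pow]
          rfl
        rw [e1, hT.1]
        have e2 : ((πF ^ (E + 1) / lF ^ p : FF Lc.S₁) : Acl k Ω)
            = Lc.π ^ (E + 1) * ((Lc.ζ - 1) ^ p)⁻¹ := by
          rw [div_eq_mul_inv]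
          rfl
        rw [e2, gam_nm_mul, gam_nm_inv, gam_nm_pow, gam_nm_pow, ← div_eq_mul_inv,
          div_le_one₀ (pow_pos (gam_nm_pos Lc hlA) p)]
        refine le_trans ?_ hE.le
        show nm Lc Lc.π ^ (E + 1) ≤ nm Lc Lc.π ^ E
        exact pow_le_pow_of_le_one (norm_nonneg _) (Lc.ltπ.le) (Nat.le_succ E)
      refine ⟨n * (E + 1), Nat.mul_pos hn (Nat.succ_pos E), ?_⟩
      rw [pow_mul]
      exact (pow_lt_pow_left₀ hzn zero_le (Nat.succ_ne_zero E)).trans_le hE1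
  obtain ⟨c, hc, g, hg⟩ := gam_ind hDp hU D Lc O B hT hB hOB M hM z hz hMz
  apply gam_final hRt D Lc (t * y * g) c hc
  rw [hπ, hyz, hg]
  ring

end Pool.Agent.Helper14.BSC
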