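import Pool.Agent.Helper14.BSC.Stmts2

set_option autoImplicit false

/-! # MOB1: one function with cofinitely many rational norm classes has a value in `k ∪ {∞}` -/

namespace Pool.Agent.Helper14.BSC

section

variable {k Ω : Type} [Field k] [Field Ω] [Algebra k Ω]

theorem mob1_NR_mul (D : Sec k Ω) (k₁ : Type) [Field k₁] [Algebra k₁ k] {x y : LL D}
    (hx : NR D k₁ x) (hy : NR D k₁ y) : NR D k₁ (x * y) := by
  obtain ⟨r, hr, h⟩ := hx
  obtain ⟨r', hr', h'⟩ := hy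
  refine ⟨r * r', mul_ne_zero hr hr', ?_⟩
  intro n hn
  obtain ⟨c, hc, g, hg, t, ht⟩ := h n hn
  obtain ⟨c', hc', g', hg', t', ht'⟩ := h' n hn
  refine ⟨c * c', mul_ne_zero hc hc', g * g', ?_, t * t', ?_⟩
  · rw [hg, hg', map_mul, mul_pow]
    ring
  · rw [map_mul, ht, ht', mul_pow]
    ring

theorem mob1_NR_inv (D : Sec k Ω) (k₁ : Type) [Field k₁] [Algebra k₁ k] {x : LL D}
    (hx : NR D k₁ x) : NR D k₁ x⁻¹ := by
  obtain ⟨r, hr, h⟩ := hx
  refine ⟨r⁻¹, inv_ne_zero hr, ?_⟩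
  intro n hn
  obtain ⟨c, hc, g, hg, t, ht⟩ := h n hn
  refine ⟨c⁻¹, inv_ne_zero hc, g⁻¹, ?_, t⁻¹, ?_⟩
  · rw [hg, mul_inv, map_inv₀, inv_pow]
  · have h1 : Algebra.norm k₁ c⁻¹ * Algebra.norm k₁ c = 1 := by
      rw [← map_mul, inv_mul_cancel₀ hc, map_one]
    rw [eq_inv_of_mul_eq_one_left h1, ht, mul_inv, inv_pow]

theorem mob1_NR_const (D : Sec k Ω) (k₁ : Type) [Field k₁] [Algebra k₁ k]
    [FiniteDimensional k₁ k] {c : k} (hc : c ≠ 0) : NR D k₁ (algebraMap k (LL D) c) := by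
  refine ⟨Algebra.norm k₁ c, ?_, ?_⟩
  · rw [Algebra.norm_ne_zero_iff]
    exact hc
  · intro n _
    refine ⟨c, hc, 1, ?_, 1, ?_⟩
    · rw [one_pow, mul_one]
    · rw [one_pow, mul_one]

theorem mob1_base {D : Sec k Ω} {p : ℕ} [Fact p.Prime] {σ : k →+* ℂ_[p]} (P : Place D p σ) (c : k) :
    algebraMap k (LL D) c ∈ P.C := (P.base c).1

theorem mob1_base2 {D : Sec k Ω} {p : ℕ} [Fact p.Prime] {σ : k →+* ℂ_[p]} (P : Place D p σ) (c : k) :
    P.φ ⟨algebraMap k (LL D) c, mob1_base P c⟩ = σ c := (P.base c).2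

theorem mob1_sub {D : Sec k Ω} {p : ℕ} [Fact p.Prime] {σ : k →+* ℂ_[p]} (P : Place D p σ) (c : k)
    (f : LL D) : f - algebraMap k (LL D) c ∈ P.C ↔ f ∈ P.C := by
  constructor
  · intro h
    have := add_mem h (mob1_base P c)
    rwa [sub_add_cancel] at this
  · intro h
    exact sub_mem h (mob1_base P c)

theorem mob1_sub2 {D : Sec k Ω} {p : ℕ} [Fact p.Prime] {σ : k →+* ℂ_[p]} (P : Place D p σ) (c : k)
    (f : LL D) (h : f ∈ P.C) (h' : f - algebraMap k (LL D) c ∈ P.C) :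
    P.φ ⟨_, h'⟩ = P.φ ⟨f, h⟩ - σ c := by
  rw [← mob1_base2 P c, ← map_sub]
  rfl

/-- the inverse of `f - b` is integral when `σ b` is not the value of `f` -/
theorem mob1_inv {D : Sec k Ω} {p : ℕ} [Fact p.Prime] {σ : k →+* ℂ_[p]} (P : Place D p σ) (b : k)
    (f : LL D) (hb : ∀ h : f ∈ P.C, P.φ ⟨f, h⟩ ≠ σ b) :
    (f - algebraMap k (LL D) b)⁻¹ ∈ P.C := by
  by_cases hf : f ∈ P.C
  · have h1 := (mob1_sub P b f).2 hf
    by_contra hc
    have h2 := (P.ker ⟨_, h1⟩).2 (Or.inr hc)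
    rw [mob1_sub2 P b f hf h1, sub_eq_zero] at h2
    exact hb hf h2
  · rcases P.C.mem_or_inv_mem (f - algebraMap k (LL D) b) with h | h
    · exact absurd ((mob1_sub P b f).1 h) hf
    · exact h

theorem mob1_exists {k : Type} [Field k] [CharZero k] {n p : ℕ} [Fact p.Prime]
    (σ : Fin n → (k →+* ℂ_[p])) (S : Set k) (hS : S.Finite) (Q : Fin n → ℂ_[p] → Prop)
    (hQ : ∀ i x y, Q i x → Q i y → x = y) : ∃ b, b ∉ S ∧ ∀ i, ¬ Q i (σ i b) := by
  have h1 : (S ∪ ⋃ i : Fin n, {b : k | Q i (σ i b)}).Finite := by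
    apply hS.union
    apply Set.finite_iUnion
    intro i
    apply Set.Subsingleton.finite
    intro x hx y hy
    exact (σ i).injective (hQ i _ _ hx hy)
  obtain ⟨b, hb⟩ := h1.exists_notMem
  rw [Set.mem_union, not_or] at hb
  refine ⟨b, hb.1, fun i hi => hb.2 ?_⟩
  rw [Set.mem_iUnion]
  exact ⟨i, hi⟩

end

theorem st_MOB1 (h3 : ST_N3) : ST_MOB1 := by
  intro k Ω _ _ _ _ _ D k₁ _ _ _ p _ T P f hf hfin
  obtain ⟨b, hb1, hb2⟩ := mob1_exists T.σ _ hfin
    (fun i w => ∃ h : f ∈ (P i).C, (P i).φ ⟨f, h⟩ = w)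
    (by rintro i x y ⟨h, hx⟩ ⟨h', hy⟩; rw [← hx, ← hy])
  have hNb : NR D k₁ (f - algebraMap k (LL D) b) := by
    by_contra hc
    exact hb1 hc
  have hfb : f - algebraMap k (LL D) b ≠ 0 := sub_ne_zero.2 (hf b)
  have hg : ∀ i, (f - algebraMap k (LL D) b)⁻¹ ∈ (P i).C := by
    intro i
    apply mob1_inv
    intro h hc
    exact hb2 i ⟨h, hc⟩
  obtain ⟨z, hz⟩ := h3 k Ω D k₁ p T P (f - algebraMap k (LL D) b)⁻¹ (by
    intro b' hb'
    have hinj : Function.Injective (algebraMap k₁ k) := (algebraMap k₁ k).injective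
    apply Set.Finite.subset (s := {0} ∪ (fun a : k₁ => b + b' / algebraMap k₁ k a) ⁻¹'
      {a : k | ¬ NR D k₁ (f - algebraMap k (LL D) a)})
    · apply (Set.finite_singleton _).union
      apply hfin.preimage
      intro x _ y _ hxy
      have h1 : b + b' / algebraMap k₁ k x = b + b' / algebraMap k₁ k y := hxy
      rw [add_right_inj, div_eq_mul_inv, div_eq_mul_inv, mul_right_inj' hb', inv_inj] at h1
      exact hinj h1
    · intro a ha
      by_contra hc
      rw [Set.mem_union, not_or] at hc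
      have ha0 : a ≠ 0 := hc.1
      have haN : NR D k₁ (f - algebraMap k (LL D) (b + b' / algebraMap k₁ k a)) := by
        by_contra hc2
        exact hc.2 hc2
      apply ha
      have ha1 : algebraMap k₁ k a ≠ 0 := (_root_.map_ne_zero _).2 ha0
      have ha2 : algebraMap k (LL D) (algebraMap k₁ k a) ≠ 0 := (_root_.map_ne_zero _).2 ha1
      have e : algebraMap k (LL D) b' * (f - algebraMap k (LL D) b)⁻¹ -
          algebraMap k (LL D) (algebraMap k₁ k a)
          = algebraMap k (LL D) (-algebraMap k₁ k a) *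
            ((f - algebraMap k (LL D) (b + b' / algebraMap k₁ k a)) *
              (f - algebraMap k (LL D) b)⁻¹) := by
        rw [map_neg, map_add, map_div₀]
        field_simp
        ring
      rw [e]
      exact mob1_NR_mul D k₁ (mob1_NR_const D k₁ (neg_ne_zero.2 ha1))
        (mob1_NR_mul D k₁ haN (mob1_NR_inv D k₁ hNb))) hg
  by_cases hz0 : z = 0
  · refine ⟨none, fun i => ?_⟩
    have h1 := hz i
    rw [hz0, map_zero, (P i).ker] at h1
    rcases h1 with h1 | h1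
    · exact absurd h1 (inv_ne_zero hfb)
    · show f ∉ (P i).C
      intro hc
      apply h1
      show ((f - algebraMap k (LL D) b)⁻¹)⁻¹ ∈ (P i).C
      rw [inv_inv, mob1_sub]
      exact hc
  · refine ⟨some (b + z⁻¹), fun i => ?_⟩
    have h1 := hz i
    have hσz : T.σ i z ≠ 0 := (_root_.map_ne_zero _).2 hz0
    have h2 : f - algebraMap k (LL D) b ∈ (P i).C := by
      by_contra hc
      have h3 := ((P i).ker ⟨_, hg i⟩).2 (Or.inr (by
        show ((f - algebraMap k (LL D) b)⁻¹)⁻¹ ∉ (P i).C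
        rwa [inv_inv]))
      rw [h1] at h3
      exact hσz h3
    have h4 : f ∈ (P i).C := (mob1_sub _ _ _).1 h2
    refine ⟨h4, ?_⟩
    have h5 : (P i).φ ⟨_, h2⟩ * (P i).φ ⟨_, hg i⟩ = 1 := by
      rw [← map_mul, ← map_one (P i).φ]
      congr 1
      apply Subtype.ext
      exact mul_inv_cancel₀ hfb
    rw [h1, mob1_sub2 (P i) b f h4 h2] at h5
    rw [map_add, map_inv₀]
    have h6 : (P i).φ ⟨f, h4⟩ - T.σ i b = (T.σ i z)⁻¹ := eq_inv_of_mul_eq_one_left h5
    linear_combination h6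

end Pool.Agent.Helper14.BSC
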